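import Mathlib

/-!
# Gale's theorem: transportation with capacities (real numbers)

`gale`: a non-negative matrix `Z ≤ W` with the row sums `r` and the column sums `c` exists if
`∑_A r + ∑_C c ≤ ∑ r + W(A × C)` for all sets `A` of rows and `C` of columns. Proof: separation of
a point from a compact convex set and integration over the level sets of the separating functional.
-/

set_option autoImplicit false

open Finset

namespace Pool.Agent.H24.PK

/-- integration over the level sets -/
theorem gale_dual {ι κ : Type*} [Fintype ι] [Fintype κ] (W : ι → κ → ℝ) (r : ι → ℝ) (c : κ → ℝ)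
    (hrc : ∑ i, r i = ∑ j, c j)
    (hcut : ∀ (A : Finset ι) (C : Finset κ),
      ∑ i ∈ A, r i + ∑ j ∈ C, c j ≤ ∑ i, r i + ∑ i ∈ A, ∑ j ∈ C, W i j)
    (α : ι → ℝ) (β : κ → ℝ) :
    ∑ i, r i * α i + ∑ j, c j * β j ≤ ∑ i, ∑ j, W i j * max (α i + β j) 0 := by
  classical
  obtain ⟨L, hL0, hα, hβ⟩ : ∃ L : ℝ, 0 ≤ L ∧ (∀ i, |α i| ≤ L) ∧ ∀ j, |β j| ≤ L := by
    refine ⟨∑ i, |α i| + ∑ j, |β j|, by positivity, fun i => ?_, fun j => ?_⟩
    · have h1 := Finset.single_le_sum (f := fun i => |α i|) (fun i _ => abs_nonneg _)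
        (Finset.mem_univ i)
      have h2 : 0 ≤ ∑ j, |β j| := by positivity
      linarith
    · have h1 := Finset.single_le_sum (f := fun j => |β j|) (fun i _ => abs_nonneg _)
        (Finset.mem_univ j)
      have h2 : 0 ≤ ∑ i, |α i| := by positivity
      linarith
  let I : Set ℝ → ℝ → ℝ := fun s => s.indicator (fun _ => 1)
  have hI : ∀ a b : ℝ, MeasureTheory.Integrable (I (Set.Ico a b)) := by
    intro a b
    change MeasureTheory.Integrable ((Set.Ico a b).indicator fun _ => (1 : ℝ))
    rw [MeasureTheory.integrable_indicator_iff measurableSet_Ico]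
    exact MeasureTheory.integrableOn_const (by simp)
  have hval : ∀ a b : ℝ, ∫ τ, I (Set.Ico a b) τ = max (b - a) 0 := by
    intro a b
    simp only [I]
    rw [MeasureTheory.integral_indicator_const _ measurableSet_Ico]
    simp [Real.volume_real_Ico]
  -- the pointwise inequality
  have hpt : ∀ τ : ℝ, ∑ i, r i * I (Set.Ico (-L) (α i)) τ + ∑ j, c j * I (Set.Ico (-β j) L) τ ≤
      (∑ i, r i) * I (Set.Ico (-L) L) τ + ∑ i, ∑ j, W i j * I (Set.Ico (-β j) (α i)) τ := by
    intro τ
    by_cases hτ : τ ∈ Set.Ico (-L) L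
    · have h := hcut (Finset.univ.filter fun i => τ < α i) (Finset.univ.filter fun j => -β j ≤ τ)
      have e1 : ∑ i, r i * I (Set.Ico (-L) (α i)) τ =
          ∑ i ∈ Finset.univ.filter (fun i => τ < α i), r i := by
        rw [Finset.sum_filter]
        refine Finset.sum_congr rfl fun i _ => ?_
        simp only [I, Set.indicator_apply, Set.mem_Ico, hτ.1, true_and]
        split_ifs <;> simp
      have e2 : ∑ j, c j * I (Set.Ico (-β j) L) τ =
          ∑ j ∈ Finset.univ.filter (fun j => -β j ≤ τ), c j := by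
        rw [Finset.sum_filter]
        refine Finset.sum_congr rfl fun i _ => ?_
        simp only [I, Set.indicator_apply, Set.mem_Ico, hτ.2, and_true]
        split_ifs <;> simp
      have e3 : (∑ i, r i) * I (Set.Ico (-L) L) τ = ∑ i, r i := by
        simp only [I, Set.indicator_apply, if_pos hτ, mul_one]
      have e4 : ∑ i, ∑ j, W i j * I (Set.Ico (-β j) (α i)) τ =
          ∑ i ∈ Finset.univ.filter (fun i => τ < α i),
            ∑ j ∈ Finset.univ.filter (fun j => -β j ≤ τ), W i j := by
        rw [Finset.sum_filter]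
        refine Finset.sum_congr rfl fun i _ => ?_
        by_cases hi : τ < α i
        · rw [if_pos hi, Finset.sum_filter]
          refine Finset.sum_congr rfl fun j _ => ?_
          simp only [I, Set.indicator_apply, Set.mem_Ico, hi, and_true]
          split_ifs <;> simp
        · rw [if_neg hi]
          refine Finset.sum_eq_zero fun j _ => ?_
          simp only [I, Set.indicator_apply, Set.mem_Ico, hi, and_false, if_false, mul_zero]
      rw [e1, e2, e3, e4]
      exact h
    · have z1 : ∀ i, I (Set.Ico (-L) (α i)) τ = 0 := by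
        intro i
        simp only [I]
        refine Set.indicator_of_notMem (fun h => hτ ⟨h.1, lt_of_lt_of_le h.2 ?_⟩) _
        exact (le_abs_self _).trans (hα i)
      have z2 : ∀ j, I (Set.Ico (-β j) L) τ = 0 := by
        intro j
        simp only [I]
        refine Set.indicator_of_notMem (fun h => hτ ⟨le_trans ?_ h.1, h.2⟩) _
        exact neg_le_neg ((le_abs_self _).trans (hβ j))
      have z3 : I (Set.Ico (-L) L) τ = 0 := Set.indicator_of_notMem hτ _
      have z4 : ∀ i j, I (Set.Ico (-β j) (α i)) τ = 0 := by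
        intro i j
        simp only [I]
        refine Set.indicator_of_notMem (fun h => hτ ⟨le_trans ?_ h.1, lt_of_lt_of_le h.2 ?_⟩) _
        · exact neg_le_neg ((le_abs_self _).trans (hβ j))
        · exact (le_abs_self _).trans (hα i)
      simp [z1, z2, z3, z4]
  have hint := MeasureTheory.integral_mono (μ := MeasureTheory.volume)
    (f := fun τ => ∑ i, r i * I (Set.Ico (-L) (α i)) τ + ∑ j, c j * I (Set.Ico (-β j) L) τ)
    (g := fun τ => (∑ i, r i) * I (Set.Ico (-L) L) τ +
      ∑ i, ∑ j, W i j * I (Set.Ico (-β j) (α i)) τ)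
    ((MeasureTheory.integrable_finsetSum _ fun i _ => (hI _ _).const_mul _).add
      (MeasureTheory.integrable_finsetSum _ fun j _ => (hI _ _).const_mul _))
    (((hI _ _).const_mul _).add
      (MeasureTheory.integrable_finsetSum _ fun i _ =>
        MeasureTheory.integrable_finsetSum _ fun j _ => (hI _ _).const_mul _)) hpt
  rw [MeasureTheory.integral_add, MeasureTheory.integral_add, MeasureTheory.integral_finsetSum,
    MeasureTheory.integral_finsetSum, MeasureTheory.integral_const_mul,
    MeasureTheory.integral_finsetSum] at hint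
  rotate_left
  · intro i _
    exact MeasureTheory.integrable_finsetSum _ fun j _ => (hI _ _).const_mul _
  · intro i _
    exact (hI _ _).const_mul _
  · intro i _
    exact (hI _ _).const_mul _
  · exact (hI _ _).const_mul _
  · exact MeasureTheory.integrable_finsetSum _ fun i _ =>
        MeasureTheory.integrable_finsetSum _ fun j _ => (hI _ _).const_mul _
  · exact MeasureTheory.integrable_finsetSum _ fun i _ => (hI _ _).const_mul _
  · exact MeasureTheory.integrable_finsetSum _ fun i _ => (hI _ _).const_mul _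
  have s1 : ∑ i, ∫ τ, r i * I (Set.Ico (-L) (α i)) τ = ∑ i, r i * α i + L * ∑ i, r i := by
    rw [Finset.mul_sum, ← Finset.sum_add_distrib]
    refine Finset.sum_congr rfl fun i _ => ?_
    rw [MeasureTheory.integral_const_mul, hval, max_eq_left]
    · ring
    · have := (abs_le.1 (hα i)).1
      linarith
  have s2 : ∑ j, ∫ τ, c j * I (Set.Ico (-β j) L) τ = ∑ j, c j * β j + L * ∑ i, r i := by
    rw [hrc, Finset.mul_sum, ← Finset.sum_add_distrib]
    refine Finset.sum_congr rfl fun j _ => ?_
    rw [MeasureTheory.integral_const_mul, hval, max_eq_left]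
    · ring
    · have := (abs_le.1 (hβ j)).1
      linarith
  have s3 : ∫ τ, I (Set.Ico (-L) L) τ = 2 * L := by
    rw [hval, max_eq_left]
    · ring
    · linarith
  have s4 : ∑ i, ∫ τ, ∑ j, W i j * I (Set.Ico (-β j) (α i)) τ =
      ∑ i, ∑ j, W i j * max (α i + β j) 0 := by
    refine Finset.sum_congr rfl fun i _ => ?_
    rw [MeasureTheory.integral_finsetSum _ fun j _ => (hI _ _).const_mul _]
    refine Finset.sum_congr rfl fun j _ => ?_
    rw [MeasureTheory.integral_const_mul, hval, sub_neg_eq_add]
  rw [s1, s2, s3, s4] at hint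
  linarith

/-- Gale's theorem -/
theorem gale {ι κ : Type*} [Fintype ι] [Fintype κ] (W : ι → κ → ℝ) (hW : ∀ i j, 0 ≤ W i j)
    (r : ι → ℝ) (c : κ → ℝ) (hrc : ∑ i, r i = ∑ j, c j)
    (hcut : ∀ (A : Finset ι) (C : Finset κ),
      ∑ i ∈ A, r i + ∑ j ∈ C, c j ≤ ∑ i, r i + ∑ i ∈ A, ∑ j ∈ C, W i j) :
    ∃ Z : ι → κ → ℝ, (∀ i j, 0 ≤ Z i j) ∧ (∀ i j, Z i j ≤ W i j) ∧
      (∀ i, ∑ j, Z i j = r i) ∧ ∀ j, ∑ i, Z i j = c j := by
  classical
  let T : (ι → κ → ℝ) →ₗ[ℝ] ((ι → ℝ) × (κ → ℝ)) :=
    { toFun := fun Z => (fun i => ∑ j, Z i j, fun j => ∑ i, Z i j)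
      map_add' := fun Y Z => by
        ext <;> simp [Finset.sum_add_distrib]
      map_smul' := fun a Z => by
        ext <;> simp [Finset.mul_sum] }
  have hTc : Continuous T := by
    refine Continuous.prodMk ?_ ?_
    · exact continuous_pi fun i => continuous_finsetSum _ fun j _ => by fun_prop
    · exact continuous_pi fun j => continuous_finsetSum _ fun i _ => by fun_prop
  let S : Set (ι → κ → ℝ) := Set.Icc 0 W
  have hS : IsCompact S := isCompact_Icc
  have hTS : IsCompact (T '' S) := hS.image hTc
  have hconv : Convex ℝ (T '' S) := (convex_Icc 0 W).linear_image T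
  by_cases hmem : (r, c) ∈ T '' S
  · obtain ⟨Z, hZ, hZ2⟩ := hmem
    refine ⟨Z, fun i j => hZ.1 i j, fun i j => hZ.2 i j, fun i => ?_, fun j => ?_⟩
    · exact congrFun (congrArg Prod.fst hZ2) i
    · exact congrFun (congrArg Prod.snd hZ2) j
  · exfalso
    obtain ⟨f, u, hf1, hf2⟩ := geometric_hahn_banach_closed_point hconv hTS.isClosed hmem
    set α : ι → ℝ := fun i => f (Pi.single i 1, 0) with hα
    set β : κ → ℝ := fun j => f (0, Pi.single j 1) with hβ
    have hf : ∀ (x : ι → ℝ) (y : κ → ℝ), f (x, y) = ∑ i, x i * α i + ∑ j, y j * β j := by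
      intro x y
      have h1 : (x, y) = ∑ i, x i • ((Pi.single i 1, 0) : (ι → ℝ) × (κ → ℝ)) +
          ∑ j, y j • ((0, Pi.single j 1) : (ι → ℝ) × (κ → ℝ)) := by
        ext k
        · simp [Prod.fst_sum, Finset.sum_apply, Pi.single_apply]
        · simp [Prod.snd_sum, Finset.sum_apply, Pi.single_apply]
      rw [h1, map_add, map_sum, map_sum]
      simp only [map_smul, smul_eq_mul, hα, hβ]
    let Z : ι → κ → ℝ := fun i j => if 0 < α i + β j then W i j else 0
    have hZS : Z ∈ S := by
      refine ⟨fun i j => ?_, fun i j => ?_⟩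
      · simp only [Z, Pi.zero_apply]
        split_ifs
        · exact hW i j
        · exact le_refl _
      · simp only [Z]
        split_ifs
        · exact le_refl _
        · exact hW i j
    have h3 := hf1 (T Z) ⟨Z, hZS, rfl⟩
    have h4 : f (T Z) = ∑ i, ∑ j, W i j * max (α i + β j) 0 := by
      have h5 : T Z = (fun i => ∑ j, Z i j, fun j => ∑ i, Z i j) := rfl
      rw [h5, hf]
      have h6 : ∑ j, (∑ i, Z i j) * β j = ∑ i, ∑ j, Z i j * β j := by
        rw [Finset.sum_comm]
        refine Finset.sum_congr rfl fun j _ => ?_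
        rw [Finset.sum_mul]
      rw [h6, ← Finset.sum_add_distrib]
      refine Finset.sum_congr rfl fun i _ => ?_
      rw [Finset.sum_mul, ← Finset.sum_add_distrib]
      refine Finset.sum_congr rfl fun j _ => ?_
      simp only [Z]
      split_ifs with h
      · rw [max_eq_left h.le]
        ring
      · rw [max_eq_right (not_lt.1 h)]
        ring
    have h7 := gale_dual W r c hrc hcut α β
    rw [hf] at hf2
    rw [h4] at h3
    linarith

end Pool.Agent.H24.PK
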