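import Pool.Agent.H24.PK.Gale

/-!
# The inequality (K6) for list packing

Let `u ≥ 0` be a matrix (rows and columns indexed by sets of the same size `N`) with all row sums
and column sums at most `e N`, `e < 1/2`, and `w = (1 - u)^+`. Then there is a matrix `Q ≥ 0` with
all row and column sums `N`, `Q ≤ w / (1 - 2 e)`, and all row and column sums of `min(Q, w)` at
least `(1 - e) N`.
-/

set_option autoImplicit false

open Finset

namespace Pool.Agent.H24.PK

/-- the arithmetic of the cut condition -/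
private theorem k6_arith (e N a c b0 b1 d0 d1 x11 x12 x13 x21 x22 x23 x31 x32 : ℝ) (he0 : 0 ≤ e)
    (he : 2 * e < 1) (hN : 0 ≤ N) (ha : 0 ≤ a) (hc : 0 ≤ c) (hb1 : 0 ≤ b1)
    (hd1 : 0 ≤ d1) (hab : a + b0 + b1 = N) (hcd : c + d0 + d1 = N)
    (h12 : 0 ≤ x12) (h13 : 0 ≤ x13) (h21 : 0 ≤ x21) (h22 : 0 ≤ x22) (h23 : 0 ≤ x23)
    (h31 : 0 ≤ x31) (h32 : 0 ≤ x32) (rA : x11 + x12 + x13 ≤ e * N * a)
    (rB : x21 + x22 + x23 = e * N * b0) (cC : x11 + x21 + x31 ≤ e * N * c)
    (cD : x12 + x22 + x32 = e * N * d0) (hcap : x22 ≤ b0 * d0) (hac : x11 ≤ a * c) :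
    (1 - 2 * e) * (x11 - (x22 + x23 + x32 + b1 * d1)) ≤ 2 * e * (a * c - x11) := by
  have hp : 0 < 1 - 2 * e := by linarith
  have hbd : 0 ≤ b1 * d1 := mul_nonneg hb1 hd1
  set E := x11 - (x22 + x23 + x32 + b1 * d1) with hE
  set D := a * c - x11 with hD
  have hD0 : 0 ≤ D := by linarith
  have hE1 : E ≤ x11 := by linarith
  have h2e : 0 ≤ 2 * e * D := by positivity
  by_cases hc2 : N ≤ 2 * c
  · have h1 : x11 ≤ e * N * a := by linarith
    have h2 : 0 ≤ e * a * (2 * c - N) := by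
      have : 0 ≤ 2 * c - N := by linarith
      positivity
    nlinarith [mul_le_mul_of_nonneg_left hE1 hp.le]
  by_cases ha2 : N ≤ 2 * a
  · have h1 : x11 ≤ e * N * c := by linarith
    have h2 : 0 ≤ e * c * (2 * a - N) := by
      have : 0 ≤ 2 * a - N := by linarith
      positivity
    nlinarith [mul_le_mul_of_nonneg_left hE1 hp.le]
  push Not at hc2 ha2
  by_contra hcon
  push Not at hcon
  -- now `2 a < N`, `2 c < N` and `2 e D < (1 - 2 e) E`
  have hE0 : 0 < E := by
    by_contra hneg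
    push Not at hneg
    nlinarith [mul_nonneg hp.le (neg_nonneg.2 hneg)]
  have hNpos : 0 < N := by linarith
  have hepos : 0 < e := by
    rcases he0.lt_or_eq with h | h
    · exact h
    · exfalso
      rw [← h] at rA
      nlinarith
  set s := N - a - c with hs
  have hs0 : 0 ≤ s := by linarith
  set δ := 2 * D / ((1 - 2 * e) * N) with hδ
  have hδ0 : 0 ≤ δ := by positivity
  have hδN : δ * ((1 - 2 * e) * N) = 2 * D := by
    rw [hδ]
    field_simp
  have hEδ : e * N * δ < E := by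
    have h1 : (1 - 2 * e) * (e * N * δ) = 2 * e * D := by
      calc (1 - 2 * e) * (e * N * δ) = e * (δ * ((1 - 2 * e) * N)) := by ring
        _ = 2 * e * D := by rw [hδN]; ring
    have h2 : (1 - 2 * e) * (e * N * δ) < (1 - 2 * e) * E := by rw [h1]; exact hcon
    exact lt_of_mul_lt_mul_left h2 hp.le
  have heN : 0 < e * N := by positivity
  have U1 : E ≤ b1 * (e * N - d1) - e * N * s := by
    have h1 : b0 = N - a - b1 := by linarith
    have h2 : e * N * b0 = e * N * (N - a - b1) := by rw [h1]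
    have h3 : E = x11 + x21 - e * N * b0 - x32 - b1 * d1 := by rw [hE, ← rB]; ring
    have h4 : E ≤ e * N * c - e * N * b0 - b1 * d1 := by rw [h3]; linarith
    rw [h2] at h4
    rw [hs]
    nlinarith
  have U2 : E ≤ d1 * (e * N - b1) - e * N * s := by
    have h1 : d0 = N - c - d1 := by linarith
    have h2 : e * N * d0 = e * N * (N - c - d1) := by rw [h1]
    have h3 : E = x11 + x12 - e * N * d0 - x23 - b1 * d1 := by rw [hE, ← cD]; ring
    have h4 : E ≤ e * N * a - e * N * d0 - b1 * d1 := by rw [h3]; linarith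
    rw [h2] at h4
    rw [hs]
    nlinarith
  have hb1s : s + δ < b1 := by
    have h1 : e * N * (s + δ) < e * N * b1 := by nlinarith
    exact lt_of_mul_lt_mul_left h1 heN.le
  have hd1s : s + δ < d1 := by
    have h1 : e * N * (s + δ) < e * N * d1 := by nlinarith
    exact lt_of_mul_lt_mul_left h1 heN.le
  have U3 : E ≤ D + (1 - 2 * e) * N * s - b1 * ((1 - e) * N - c) - d1 * ((1 - e) * N - a) := by
    have h1 : b0 = N - a - b1 := by linarith
    have h2 : d0 = N - c - d1 := by linarith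
    have h3 : x22 + x23 + x32 + b1 * d1 = b1 * d1 + e * N * (b0 + d0) - x12 - x21 - x22 := by
      linarith
    have h4 : x12 ≤ e * N * a - x11 := by linarith
    have h5 : x21 ≤ e * N * c - x11 := by linarith
    have h6 : E ≤ -x11 - b1 * d1 - e * N * (b0 + d0 - a - c) + b0 * d0 := by
      rw [hE, h3]
      nlinarith
    have h7 : x11 = a * c - D := by rw [hD]; ring
    rw [h7, h1, h2] at h6
    rw [hs]
    nlinarith
  have hn1 : 0 < (1 - e) * N - c := by nlinarith
  have hn2 : 0 < (1 - e) * N - a := by nlinarith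
  have h8 : (s + δ) * ((1 - e) * N - c) ≤ b1 * ((1 - e) * N - c) :=
    mul_le_mul_of_nonneg_right hb1s.le hn1.le
  have h9 : (s + δ) * ((1 - e) * N - a) ≤ d1 * ((1 - e) * N - a) :=
    mul_le_mul_of_nonneg_right hd1s.le hn2.le
  have h10 : (s + δ) * ((1 - e) * N - c) + (s + δ) * ((1 - e) * N - a) =
      (s + δ) * ((1 - 2 * e) * N + s) := by rw [hs]; ring
  have h11 : (s + δ) * ((1 - 2 * e) * N + s) =
      (1 - 2 * e) * N * s + s ^ 2 + 2 * D + δ * s := by
    calc (s + δ) * ((1 - 2 * e) * N + s)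
        = (1 - 2 * e) * N * s + s ^ 2 + δ * ((1 - 2 * e) * N) + δ * s := by ring
      _ = _ := by rw [hδN]
  have h12' : 0 ≤ s ^ 2 := sq_nonneg s
  have h13' : 0 ≤ δ * s := mul_nonneg hδ0 hs0
  linarith

section

variable {ι κ : Type*} [Fintype ι] [Fintype κ] [DecidableEq ι] [DecidableEq κ]

/-- the cut condition for a matrix which is maximal -/
theorem k6_cut (N : ℕ) (hι : Fintype.card ι = N) (hκ : Fintype.card κ = N) {e : ℝ} (he0 : 0 ≤ e)
    (he : 2 * e < 1) (X : ι → κ → ℝ) (hX0 : ∀ i j, 0 ≤ X i j) (hX1 : ∀ i j, X i j ≤ 1)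
    (hr : ∀ i, ∑ j, X i j ≤ e * N) (hc : ∀ j, ∑ i, X i j ≤ e * N)
    (hmax : ∀ i j, ∑ j, X i j < e * N → ∑ i, X i j < e * N → X i j = 1)
    (A : Finset ι) (C : Finset κ) :
    (1 - 2 * e) * (∑ i ∈ A, ∑ j, X i j + ∑ j ∈ C, ∑ i, X i j - ∑ i, ∑ j, X i j) ≤
      2 * e * ((A.card : ℝ) * C.card - ∑ i ∈ A, ∑ j ∈ C, X i j) := by
  classical
  set B1 : Finset ι := Aᶜ.filter fun i => ∑ j, X i j < e * N with hB1
  set B0 : Finset ι := Aᶜ.filter fun i => ¬ ∑ j, X i j < e * N with hB0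
  set D1 : Finset κ := Cᶜ.filter fun j => ∑ i, X i j < e * N with hD1
  set D0 : Finset κ := Cᶜ.filter fun j => ¬ ∑ i, X i j < e * N with hD0
  have hrow : ∀ f : ι → ℝ, ∑ i, f i = ∑ i ∈ A, f i + ∑ i ∈ B0, f i + ∑ i ∈ B1, f i := by
    intro f
    rw [← Finset.sum_add_sum_compl A f,
      ← Finset.sum_filter_add_sum_filter_not Aᶜ (fun i => ∑ j, X i j < e * N) f]
    ring
  have hcol : ∀ f : κ → ℝ, ∑ j, f j = ∑ j ∈ C, f j + ∑ j ∈ D0, f j + ∑ j ∈ D1, f j := by
    intro f
    rw [← Finset.sum_add_sum_compl C f,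
      ← Finset.sum_filter_add_sum_filter_not Cᶜ (fun j => ∑ i, X i j < e * N) f]
    ring
  have hcardr : (A.card : ℝ) + B0.card + B1.card = N := by
    have := hrow (fun _ => 1)
    simp only [Finset.sum_const, nsmul_eq_mul, mul_one, Finset.card_univ, hι] at this
    exact this.symm
  have hcardc : (C.card : ℝ) + D0.card + D1.card = N := by
    have := hcol (fun _ => 1)
    simp only [Finset.sum_const, nsmul_eq_mul, mul_one, Finset.card_univ, hκ] at this
    exact this.symm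
  let S : Finset ι → Finset κ → ℝ := fun A C => ∑ i ∈ A, ∑ j ∈ C, X i j
  have hS0 : ∀ A C, 0 ≤ S A C := fun A C =>
    Finset.sum_nonneg fun i _ => Finset.sum_nonneg fun j _ => hX0 i j
  have hS1 : ∀ A C, S A C ≤ (A.card : ℝ) * C.card := by
    intro A C
    have : S A C ≤ ∑ i ∈ A, ∑ j ∈ C, (1 : ℝ) :=
      Finset.sum_le_sum fun i _ => Finset.sum_le_sum fun j _ => hX1 i j
    simpa using this
  have hSc : ∀ A : Finset ι, ∑ i ∈ A, ∑ j, X i j = S A C + S A D0 + S A D1 := by
    intro A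
    rw [← Finset.sum_add_distrib, ← Finset.sum_add_distrib]
    exact Finset.sum_congr rfl fun i _ => hcol _
  have hSr : ∀ C : Finset κ, ∑ j ∈ C, ∑ i, X i j = S A C + S B0 C + S B1 C := by
    intro C
    rw [Finset.sum_comm, hrow (fun i => ∑ j ∈ C, X i j)]
  have rA : S A C + S A D0 + S A D1 ≤ e * N * A.card := by
    rw [← hSc A]
    refine (Finset.sum_le_sum fun i _ => hr i).trans (le_of_eq ?_)
    rw [Finset.sum_const, nsmul_eq_mul]
    ring
  have rB : S B0 C + S B0 D0 + S B0 D1 = e * N * B0.card := by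
    rw [← hSc B0]
    have : ∀ i ∈ B0, ∑ j, X i j = e * N := fun i hi =>
      le_antisymm (hr i) (not_lt.1 (Finset.mem_filter.1 hi).2)
    rw [Finset.sum_congr rfl this, Finset.sum_const, nsmul_eq_mul]
    ring
  have cC : S A C + S B0 C + S B1 C ≤ e * N * C.card := by
    rw [← hSr C]
    refine (Finset.sum_le_sum fun i _ => hc i).trans (le_of_eq ?_)
    rw [Finset.sum_const, nsmul_eq_mul]
    ring
  have cD : S A D0 + S B0 D0 + S B1 D0 = e * N * D0.card := by
    rw [← hSr D0]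
    have : ∀ i ∈ D0, ∑ j, X j i = e * N := fun i hi =>
      le_antisymm (hc i) (not_lt.1 (Finset.mem_filter.1 hi).2)
    rw [Finset.sum_congr rfl this, Finset.sum_const, nsmul_eq_mul]
    ring
  have hS11 : S B1 D1 = (B1.card : ℝ) * D1.card := by
    have : S B1 D1 = ∑ i ∈ B1, ∑ j ∈ D1, (1 : ℝ) :=
      Finset.sum_congr rfl fun i hi => Finset.sum_congr rfl fun j hj =>
        hmax i j (Finset.mem_filter.1 hi).2 (Finset.mem_filter.1 hj).2
    rw [this]
    simp
  have htot : ∑ i, ∑ j, X i j = (S A C + S A D0 + S A D1) + (S B0 C + S B0 D0 + S B0 D1) +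
      (S B1 C + S B1 D0 + S B1 D1) := by
    rw [hrow (fun i => ∑ j, X i j), hSc A, hSc B0, hSc B1]
  have key := k6_arith e N A.card C.card B0.card B1.card D0.card D1.card (S A C) (S A D0) (S A D1)
    (S B0 C) (S B0 D0) (S B0 D1) (S B1 C) (S B1 D0) he0 he (Nat.cast_nonneg _) (Nat.cast_nonneg _)
    (Nat.cast_nonneg _) (Nat.cast_nonneg _) (Nat.cast_nonneg _) hcardr hcardc
    (hS0 _ _) (hS0 _ _) (hS0 _ _) (hS0 _ _) (hS0 _ _) (hS0 _ _) (hS0 _ _) rA rB cC cD
    (hS1 _ _) (hS1 _ _)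
  have e1 : ∑ i ∈ A, ∑ j, X i j + ∑ j ∈ C, ∑ i, X i j - ∑ i, ∑ j, X i j =
      S A C - (S B0 D0 + S B0 D1 + S B1 D0 + (B1.card : ℝ) * D1.card) := by
    rw [htot, hSc A, hSr C, ← hS11]
    ring
  rw [e1]
  exact key

/-- a maximal matrix above a given one -/
theorem k6_exists_max (N : ℕ) {e : ℝ} (u : ι → κ → ℝ) (hu1 : ∀ i j, u i j ≤ 1)
    (hr : ∀ i, ∑ j, u i j ≤ e * N) (hc : ∀ j, ∑ i, u i j ≤ e * N) :
    ∃ X : ι → κ → ℝ, (∀ i j, u i j ≤ X i j) ∧ (∀ i j, X i j ≤ 1) ∧
      (∀ i, ∑ j, X i j ≤ e * N) ∧ (∀ j, ∑ i, X i j ≤ e * N) ∧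
      ∀ i j, ∑ j, X i j < e * N → ∑ i, X i j < e * N → X i j = 1 := by
  classical
  let S : Set (ι → κ → ℝ) := Set.Icc u 1 ∩
    ({X | ∀ i, ∑ j, X i j ≤ e * N} ∩ {X | ∀ j, ∑ i, X i j ≤ e * N})
  have hcl : IsClosed ({X : ι → κ → ℝ | ∀ i, ∑ j, X i j ≤ e * N} ∩
      {X | ∀ j, ∑ i, X i j ≤ e * N}) := by
    refine IsClosed.inter ?_ ?_
    · simp only [Set.ofPred_forall]
      refine isClosed_iInter fun i => ?_
      exact isClosed_le (continuous_finsetSum _ fun j _ => by fun_prop) continuous_const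
    · simp only [Set.ofPred_forall]
      refine isClosed_iInter fun j => ?_
      exact isClosed_le (continuous_finsetSum _ fun i _ => by fun_prop) continuous_const
  have hS : IsCompact S := isCompact_Icc.inter_right hcl
  have hne : S.Nonempty := ⟨u, ⟨le_refl _, fun i j => hu1 i j⟩, hr, hc⟩
  have hcont : ContinuousOn (fun X : ι → κ → ℝ => ∑ i, ∑ j, X i j) S :=
    (continuous_finsetSum _ fun i _ => continuous_finsetSum _ fun j _ => by fun_prop).continuousOn
  obtain ⟨X, hX, hmax⟩ := hS.exists_isMaxOn hne hcont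
  refine ⟨X, fun i j => hX.1.1 i j, fun i j => hX.1.2 i j, hX.2.1, hX.2.2, ?_⟩
  intro i j hi hj
  by_contra hne1
  have hlt : X i j < 1 := lt_of_le_of_ne (hX.1.2 i j) hne1
  obtain ⟨t, ht0, ht1, ht2, ht3⟩ : ∃ t : ℝ, 0 < t ∧ X i j + t ≤ 1 ∧
      ∑ j, X i j + t ≤ e * N ∧ ∑ i, X i j + t ≤ e * N := by
    refine ⟨min (1 - X i j) (min (e * N - ∑ j, X i j) (e * N - ∑ i, X i j)), ?_, ?_, ?_, ?_⟩
    · refine lt_min (by linarith) (lt_min (by linarith) (by linarith))
    · have := min_le_left (1 - X i j) (min (e * N - ∑ j, X i j) (e * N - ∑ i, X i j))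
      linarith
    · have := (min_le_right (1 - X i j) (min (e * N - ∑ j, X i j) (e * N - ∑ i, X i j))).trans
        (min_le_left _ _)
      linarith
    · have := (min_le_right (1 - X i j) (min (e * N - ∑ j, X i j) (e * N - ∑ i, X i j))).trans
        (min_le_right _ _)
      linarith
  let Y : ι → κ → ℝ := fun a b => X a b + if a = i ∧ b = j then t else 0
  have hYr : ∀ a, ∑ b, Y a b = ∑ b, X a b + if a = i then t else 0 := by
    intro a
    simp only [Y]
    rw [Finset.sum_add_distrib]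
    congr 1
    by_cases h : a = i
    · simp [h]
    · simp [h]
  have hYc : ∀ b, ∑ a, Y a b = ∑ a, X a b + if b = j then t else 0 := by
    intro b
    simp only [Y]
    rw [Finset.sum_add_distrib]
    congr 1
    by_cases h : b = j
    · simp [h]
    · simp [h]
  have hYS : Y ∈ S := by
    refine ⟨⟨fun a b => ?_, fun a b => ?_⟩, fun a => ?_, fun b => ?_⟩
    · have h1 := hX.1.1 a b
      simp only [Y]
      split_ifs
      · linarith
      · linarith
    · have h1 := hX.1.2 a b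
      simp only [Y]
      split_ifs with h
      · rw [h.1, h.2]
        exact ht1
      · rw [add_zero]
        exact h1
    · rw [hYr]
      split_ifs with h
      · rw [h]
        exact ht2
      · rw [add_zero]
        exact hX.2.1 a
    · rw [hYc]
      split_ifs with h
      · rw [h]
        exact ht3
      · rw [add_zero]
        exact hX.2.2 b
  have h1 := hmax hYS
  have h2 : ∑ a, ∑ b, Y a b = ∑ a, ∑ b, X a b + t := by
    rw [Finset.sum_congr rfl fun a _ => hYr a, Finset.sum_add_distrib]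
    simp
  simp only [Set.mem_ofPred_eq] at h1
  rw [h2] at h1
  linarith

/-- the inequality (K6) -/
theorem k6 (N : ℕ) (hι : Fintype.card ι = N) (hκ : Fintype.card κ = N) {e : ℝ} (he0 : 0 ≤ e)
    (he : 2 * e < 1) (u : ι → κ → ℝ) (hu : ∀ i j, 0 ≤ u i j) (hr : ∀ i, ∑ j, u i j ≤ e * N)
    (hc : ∀ j, ∑ i, u i j ≤ e * N) :
    ∃ Q : ι → κ → ℝ, (∀ i j, 0 ≤ Q i j) ∧
      (∀ i j, Q i j ≤ max (1 - u i j) 0 / (1 - 2 * e)) ∧
      (∀ i, ∑ j, Q i j = N) ∧ (∀ j, ∑ i, Q i j = N) ∧
      (∀ i, (1 - e) * N ≤ ∑ j, min (Q i j) (max (1 - u i j) 0)) ∧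
      ∀ j, (1 - e) * N ≤ ∑ i, min (Q i j) (max (1 - u i j) 0) := by
  classical
  have hp : 0 < 1 - 2 * e := by linarith
  obtain ⟨X, hXu, hX1, hXr, hXc, hmax⟩ := k6_exists_max N (e := e) (fun i j => min (u i j) 1)
    (fun i j => min_le_right _ _)
    (fun i => (Finset.sum_le_sum fun j _ => min_le_left _ _).trans (hr i))
    (fun j => (Finset.sum_le_sum fun i _ => min_le_left _ _).trans (hc j))
  have hX0 : ∀ i j, 0 ≤ X i j := fun i j => (le_min (hu i j) zero_le_one).trans (hXu i j)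
  have hw : ∀ i j, 1 - X i j ≤ max (1 - u i j) 0 := by
    intro i j
    have h1 := hXu i j
    rcases le_total (u i j) 1 with h | h
    · rw [min_eq_left h] at h1
      exact le_max_of_le_left (by linarith)
    · rw [min_eq_right h] at h1
      exact le_max_of_le_right (by linarith)
  obtain ⟨Z, hZ0, hZ1, hZr, hZc⟩ := gale (fun i j => 2 * e / (1 - 2 * e) * (1 - X i j))
    (fun i j => mul_nonneg (by positivity) (by linarith [hX1 i j]))
    (fun i => ∑ j, X i j) (fun j => ∑ i, X i j) Finset.sum_comm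
    (by
      intro A C
      have h1 := k6_cut N hι hκ he0 he X hX0 hX1 hXr hXc hmax A C
      have h2 : ∑ i ∈ A, ∑ j ∈ C, 2 * e / (1 - 2 * e) * (1 - X i j) =
          2 * e / (1 - 2 * e) * ((A.card : ℝ) * C.card - ∑ i ∈ A, ∑ j ∈ C, X i j) := by
        rw [show (A.card : ℝ) * C.card - ∑ i ∈ A, ∑ j ∈ C, X i j =
          ∑ i ∈ A, ∑ j ∈ C, (1 - X i j) by simp [Finset.sum_sub_distrib]]
        rw [Finset.mul_sum]
        exact Finset.sum_congr rfl fun i _ => by rw [Finset.mul_sum]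
      rw [h2]
      have h3 : 2 * e / (1 - 2 * e) * ((A.card : ℝ) * C.card - ∑ i ∈ A, ∑ j ∈ C, X i j) =
          (2 * e * ((A.card : ℝ) * C.card - ∑ i ∈ A, ∑ j ∈ C, X i j)) / (1 - 2 * e) := by ring
      rw [h3]
      have h4 : ∑ i ∈ A, ∑ j, X i j + ∑ j ∈ C, ∑ i, X i j - ∑ i, ∑ j, X i j ≤
          (2 * e * ((A.card : ℝ) * C.card - ∑ i ∈ A, ∑ j ∈ C, X i j)) / (1 - 2 * e) := by
        rw [le_div_iff₀ hp, mul_comm]
        exact h1
      linarith)
  have hsr : ∀ i, ∑ j, (1 - X i j) = N - ∑ j, X i j := by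
    intro i
    rw [Finset.sum_sub_distrib, Finset.sum_const, Finset.card_univ, hκ, nsmul_eq_mul, mul_one]
  have hsc : ∀ j, ∑ i, (1 - X i j) = N - ∑ i, X i j := by
    intro j
    rw [Finset.sum_sub_distrib, Finset.sum_const, Finset.card_univ, hι, nsmul_eq_mul, mul_one]
  have hmin : ∀ i j, 1 - X i j ≤ min ((1 - X i j) + Z i j) (max (1 - u i j) 0) := fun i j =>
    le_min (by linarith [hZ0 i j]) (hw i j)
  refine ⟨fun i j => (1 - X i j) + Z i j, fun i j => ?_, fun i j => ?_, fun i => ?_, fun j => ?_,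
    fun i => ?_, fun j => ?_⟩
  · have := hX1 i j
    have := hZ0 i j
    linarith
  · have h1 : (1 - X i j) + Z i j ≤ (1 - X i j) / (1 - 2 * e) := by
      refine (add_le_add_right (hZ1 i j) _).trans (le_of_eq ?_)
      field_simp
      ring
    exact h1.trans (div_le_div_of_nonneg_right (hw i j) hp.le)
  · rw [Finset.sum_add_distrib, hsr, hZr]
    ring
  · rw [Finset.sum_add_distrib, hsc, hZc]
    ring
  · refine le_trans ?_ (Finset.sum_le_sum fun j _ => hmin i j)
    rw [hsr]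
    linarith [hXr i]
  · refine le_trans ?_ (Finset.sum_le_sum fun i _ => hmin i j)
    rw [hsc]
    linarith [hXc j]

end

end Pool.Agent.H24.PK
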